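import Pool.Agent.ANR.Stmts

set_option autoImplicit false

open scoped BigOperators ComplexConjugate

noncomputable section

namespace Pool.Agent.ANR.H92

variable {X : Type} [Fintype X] [DecidableEq X]

theorem opv_sub (H : Matrix X X ℝ) (κ : X → ℝ) (a b : X → ℂ) (x : X) :
    opv H κ (fun z => a z - b z) x = opv H κ a x - opv H κ b x := by
  unfold opv
  simp only [mul_sub, Finset.sum_sub_distrib]
  ring

theorem opv_off {H H' : Matrix X X ℝ} {κ κ' : X → ℝ} {F : Finset X} (hO : Off H κ H' κ' F)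
    (a : X → ℂ) (x : X) (hx : x ∉ F) : opv H' κ' a x = opv H κ a x := by
  unfold opv
  rw [(hO x hx).1]
  congr 1
  exact Finset.sum_congr rfl fun y _ => by rw [(hO x hx).2 y]

theorem lv1 (hG : GrnStmt) (hD : DirStmt) (hQ : QsyStmt) : Lv1Stmt := by
  intro X _ _ H H' κ κ' F y L g g₀ hN hN' hO hy hL hLev hg hg0 hg0'
  set ψ : X → ℂ := fun z => g z - g₀ z with hψdef
  have hψF : ∀ b ∈ F, ψ b = g b := by
    intro b hb
    simp [hψdef, hg0 b hb]
  have hψS : Sol H κ F ψ := by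
    intro z hz
    have h1 : opv H κ ψ z = opv H κ g z - opv H κ g₀ z := opv_sub H κ g g₀ z
    rw [h1, hg0' z hz, ← opv_off hO g z hz, hg z, sub_self]
  -- the solution with conjugate sources
  obtain ⟨φ, ⟨hφF, hφS⟩, -⟩ := hD X H κ F hN (fun b => conj (g b)) (fun _ => 0)
  have hφS' : Sol H κ F φ := fun z hz => hφS z hz
  have hQQ : Q κ F φ = Q κ F ψ := hQ X H κ F hN φ ψ hφS' hψS
    (fun b hb => by rw [hφF b hb, hψF b hb])
  -- first Green identity
  have hG1 := (hG X H' κ' hN').1 φ g₀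
  have hR : ∑ x, g₀ x * opv H' κ' φ x = 0 := by
    refine Finset.sum_eq_zero fun x _ => ?_
    by_cases hx : x ∈ F
    · rw [hg0 x hx, zero_mul]
    · rw [opv_off hO φ x hx, hφS x hx, mul_zero]
  have hLsum : ∑ x, φ x * opv H' κ' g₀ x = ∑ b ∈ F, conj (g b) * opv H' κ' g₀ b + φ y := by
    rw [← Finset.sum_add_sum_compl F]
    congr 1
    · exact Finset.sum_congr rfl fun b hb => by rw [hφF b hb]
    · have : ∀ x ∈ Fᶜ, φ x * opv H' κ' g₀ x = if x = y then φ y else 0 := by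
        intro x hx
        have hx' : x ∉ F := Finset.mem_compl.1 hx
        rw [opv_off hO g₀ x hx', hg0' x hx']
        split_ifs with h
        · rw [h, mul_one]
        · rw [mul_zero]
      rw [Finset.sum_congr rfl this, Finset.sum_ite_eq', if_pos (Finset.mem_compl.2 hy)]
  have hS : ∑ b ∈ F, conj (g b) * opv H' κ' g₀ b = - φ y := by
    have : ∑ b ∈ F, conj (g b) * opv H' κ' g₀ b + φ y = 0 := by
      rw [← hLsum, hG1, hR]
    exact eq_neg_of_add_eq_zero_left this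
  -- second Green identity
  have hG2 := (hG X H' κ' hN').2 ψ
  have hLs2 : ∑ x, conj (ψ x) * opv H' κ' ψ x = φ y := by
    rw [← Finset.sum_add_sum_compl F]
    have h1 : ∑ x ∈ Fᶜ, conj (ψ x) * opv H' κ' ψ x = 0 := by
      refine Finset.sum_eq_zero fun x hx => ?_
      have hx' : x ∉ F := Finset.mem_compl.1 hx
      rw [opv_off hO ψ x hx', hψS x hx', mul_zero]
    have h2 : ∀ b ∈ F, conj (ψ b) * opv H' κ' ψ b = - (conj (g b) * opv H' κ' g₀ b) := by
      intro b hb
      have h3 : opv H' κ' ψ b = opv H' κ' g b - opv H' κ' g₀ b := opv_sub H' κ' g g₀ b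
      have hby : b ≠ y := fun h => hy (h ▸ hb)
      rw [h3, hg b, if_neg hby, hψF b hb]
      ring
    rw [h1, add_zero, Finset.sum_congr rfl h2, Finset.sum_neg_distrib, hS, neg_neg]
  have hRs2 : ∑ x, κ' x * ‖ψ x‖ ^ 2 = ∑ b ∈ F, κ' b * ‖g b‖ ^ 2 + Q κ F ψ := by
    rw [← Finset.sum_add_sum_compl F]
    congr 1
    · exact Finset.sum_congr rfl fun b hb => by rw [hψF b hb]
    · unfold Q
      exact Finset.sum_congr rfl fun x hx => by rw [(hO x (Finset.mem_compl.1 hx)).1]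
  rw [hLs2, hRs2] at hG2
  have ht : ‖φ y‖ ^ 2 ≤ L * Q κ F ψ := by
    rw [← hQQ]
    exact hLev φ hφS'
  have hs0 : 0 ≤ ∑ b ∈ F, κ' b * ‖g b‖ ^ 2 :=
    Finset.sum_nonneg fun b _ => mul_nonneg (hN'.pos b).le (sq_nonneg _)
  have hq0 : 0 ≤ Q κ F ψ :=
    Finset.sum_nonneg fun b _ => mul_nonneg (hN.pos b).le (sq_nonneg _)
  have him : |(φ y).im| ≤ ‖φ y‖ := Complex.abs_im_le_norm _
  have him2 : -(φ y).im ≤ ‖φ y‖ := le_trans (neg_le_abs _) him
  set q := Q κ F ψ
  set s := ∑ b ∈ F, κ' b * ‖g b‖ ^ 2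
  set t := ‖φ y‖
  have hqs : q + s ≤ t := by linarith
  have hsq : (q + s) ^ 2 ≤ L * (q + s) := by
    have h0 : 0 ≤ q + s := add_nonneg hq0 hs0
    have h1 : (q + s) ^ 2 ≤ t ^ 2 := by gcongr
    have h2 : L * q ≤ L * (q + s) := by
      apply mul_le_mul_of_nonneg_left _ hL
      linarith
    linarith
  have hfin : q + s ≤ L := by
    rcases (add_nonneg hq0 hs0).eq_or_lt with h | h
    · rw [← h]; exact hL
    · have : (q + s) * (q + s) ≤ L * (q + s) := by
        rw [← sq]; exact hsq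
      exact le_of_mul_le_mul_right this h
  exact ⟨by linarith, by linarith⟩

end Pool.Agent.ANR.H92
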