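import Pool.Agent.ANR.Stmts
import Pool.Agent.ANR.Stmts2

set_option autoImplicit false

open scoped BigOperators ComplexConjugate

noncomputable section

namespace Pool.Agent.ANR.H92

theorem mink {X : Type} (A : Finset X) (κ : X → ℝ) (hκ : ∀ y ∈ A, 0 ≤ κ y) (u v : X → ℂ) :
    Real.sqrt (∑ y ∈ A, κ y * ‖u y + v y‖ ^ 2) ≤
      Real.sqrt (∑ y ∈ A, κ y * ‖u y‖ ^ 2) + Real.sqrt (∑ y ∈ A, κ y * ‖v y‖ ^ 2) := by
  set P := ∑ y ∈ A, κ y * ‖u y‖ ^ 2 with hP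
  set R := ∑ y ∈ A, κ y * ‖v y‖ ^ 2 with hR
  have hP0 : 0 ≤ P := Finset.sum_nonneg fun y hy => mul_nonneg (hκ y hy) (sq_nonneg _)
  have hR0 : 0 ≤ R := Finset.sum_nonneg fun y hy => mul_nonneg (hκ y hy) (sq_nonneg _)
  apply Real.sqrt_le_iff.2
  refine ⟨by positivity, ?_⟩
  have hcs : ∑ y ∈ A, κ y * (‖u y‖ * ‖v y‖) ≤ Real.sqrt P * Real.sqrt R := by
    rw [← Real.sqrt_mul hP0]
    apply Real.le_sqrt_of_sq_le
    refine Finset.sum_sq_le_sum_mul_sum_of_sq_le_mul A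
      (fun y hy => mul_nonneg (hκ y hy) (sq_nonneg _))
      (fun y hy => mul_nonneg (hκ y hy) (sq_nonneg _)) (fun y _ => le_of_eq ?_)
    ring
  have h1 : ∑ y ∈ A, κ y * ‖u y + v y‖ ^ 2 ≤
      P + R + 2 * ∑ y ∈ A, κ y * (‖u y‖ * ‖v y‖) := by
    rw [hP, hR, Finset.mul_sum, ← Finset.sum_add_distrib, ← Finset.sum_add_distrib]
    refine Finset.sum_le_sum fun y hy => ?_
    have h2 : ‖u y + v y‖ ^ 2 ≤ ‖u y‖ ^ 2 + ‖v y‖ ^ 2 + 2 * (‖u y‖ * ‖v y‖) := by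
      have h3 := norm_add_le (u y) (v y)
      nlinarith [norm_nonneg (u y + v y), norm_nonneg (u y), norm_nonneg (v y)]
    have := mul_le_mul_of_nonneg_left h2 (hκ y hy)
    linarith
  have h2 : (Real.sqrt P + Real.sqrt R) ^ 2 = P + R + 2 * (Real.sqrt P * Real.sqrt R) := by
    have e1 := Real.sq_sqrt hP0
    have e2 := Real.sq_sqrt hR0
    nlinarith
  rw [h2]
  linarith

theorem rev (h2 : Lv2Stmt) (h3 : GeqStmt) : RevStmt := by
  intro X _ _ H H' κ κ' b A L Go hN hN' hO hbA hL x hx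
  have hne : ∀ z ∈ A, z ∉ ({b} : Finset X) := by
    intro z hz h
    rw [Finset.mem_singleton] at h
    exact hbA (h ▸ hz)
  refine ⟨fun y hy => ?_, ?_⟩
  · have h4 := (h2 X H H' κ κ' {b} x y (L x) (L y) hN hN' hO (hne x hx) (hne y hy)
      (hL x hx).1 (hL y hy).1 (hL x hx).2 (hL y hy).2).1
    have h5 : ‖Gr H κ x y - Gr H' κ' x y‖ ≤ 2 * Real.sqrt (L x * L y) := by
      have h6 : (2 * Real.sqrt (L x * L y)) ^ 2 = 4 * L x * L y := by
        rw [mul_pow, Real.sq_sqrt (mul_nonneg (hL x hx).1 (hL y hy).1)]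
        ring
      exact abs_le_of_sq_le_sq' (by rw [h6]; exact h4) (by positivity) |>.2
    calc ‖Gr H' κ' x y - Go x y‖ = ‖(Gr H κ x y - Go x y) - (Gr H κ x y - Gr H' κ' x y)‖ := by
          congr 1
          ring
      _ ≤ ‖Gr H κ x y - Go x y‖ + ‖Gr H κ x y - Gr H' κ' x y‖ := norm_sub_le _ _
      _ ≤ _ := by linarith
  · have h4 := (h2 X H H' κ κ' {b} x x (L x) (L x) hN hN' hO (hne x hx) (hne x hx)
      (hL x hx).1 (hL x hx).1 (hL x hx).2 (hL x hx).2).2.1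
    have hs := (h3 X H κ hN).2.1
    have hs' := (h3 X H' κ' hN').2.1
    have h5 : ∑ y ∈ A, κ y * ‖-(Gr H κ x y - Gr H' κ' x y)‖ ^ 2 ≤ 4 * L x := by
      refine le_trans ?_ h4
      refine le_trans (le_of_eq (Finset.sum_congr rfl fun y _ => ?_))
        (Finset.sum_le_sum_of_subset_of_nonneg (f := fun z => κ z * ‖Gr H κ z x - Gr H' κ' z x‖ ^ 2)
          (s := A) (t := ({b} : Finset X)ᶜ) (fun y hy => Finset.mem_compl.2 (hne y hy))
          fun z _ _ => mul_nonneg (hN.pos z).le (sq_nonneg _))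
      rw [norm_neg, hs x y, hs' x y]
    have h6 := mink A κ (fun y _ => (hN.pos y).le) (fun y => Gr H κ x y - Go x y)
      (fun y => -(Gr H κ x y - Gr H' κ' x y))
    have h7 : ∀ y, (Gr H κ x y - Go x y) + -(Gr H κ x y - Gr H' κ' x y) =
        Gr H' κ' x y - Go x y := fun y => by ring
    simp only [h7] at h6
    have h8 : Real.sqrt (∑ y ∈ A, κ y * ‖-(Gr H κ x y - Gr H' κ' x y)‖ ^ 2) ≤
        2 * Real.sqrt (L x) := by
      have h9 : Real.sqrt (4 * L x) = 2 * Real.sqrt (L x) := by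
        rw [show (4 : ℝ) * L x = 2 ^ 2 * L x by ring, Real.sqrt_mul (by norm_num),
          Real.sqrt_sq (by norm_num)]
      rw [← h9]
      exact Real.sqrt_le_sqrt h5
    linarith

end Pool.Agent.ANR.H92
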