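import Pool.Agent.ANR.Stmts

/-!
# Plateau Combes-Thomas and locality for networks (block D2 of AND2B, MP_1906c1_mp)

`H` real symmetric, absorption `κ > 0` (dead sites: `κ = η`), `G = (H - i κ)⁻¹`. A weight `w > 0` is
admissible (`Adm`) if `∑_y |H_xy| |w_x / w_y - 1| ≤ κ_x / 2` and the same with `w_y / w_x`: the weight has
to be constant across the bonds of a dead site.

* `ctp_l2` : `(H - i κ) ψ = r` implies `∑ κ w² |ψ|² ≤ 4 ∑ w² |r|² / κ`.
* `ctp` : `κ_x κ_y |G_xy|² w_x² ≤ 4 w_y²`.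
* `adm_exp` : `w = exp (a ρ)` is admissible if `|ρ x - ρ y| ≤ 1` on bonds, `ρ x = ρ y` on the bonds of a
  dead site, `∑_y |H_xy| ≤ D` (off the diagonal), `4 a D ≤ κ₀`, `a ≤ 1`.
* `rng` : `κ_x κ_y |G_xy|² ≤ 4 exp (- 2 a (ρ x - ρ y))`.
* `cut_bound` : a solution off `F`, cut along living bonds.
* `lev_decay` : exponential decay of the leverages.
* `loc_bound` : two networks which agree in `B`: `G_xy - G'_xy` is exponentially small in the interior.
-/

set_option autoImplicit false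

open scoped BigOperators ComplexConjugate

noncomputable section

namespace Pool.Agent.ANR.H92

/-- an admissible weight -/
structure Adm {X : Type} [Fintype X] (H : Matrix X X ℝ) (κ : X → ℝ) (w : X → ℝ) : Prop where
  pos : ∀ x, 0 < w x
  row : ∀ x, ∑ y, |H x y| * |w x / w y - 1| ≤ κ x / 2
  col : ∀ x, ∑ y, |H x y| * |w y / w x - 1| ≤ κ x / 2

section

variable {X : Type} [Fintype X] [DecidableEq X]

omit [DecidableEq X] in
theorem opv_sub' (H : Matrix X X ℝ) (κ : X → ℝ) (a b : X → ℂ) (x : X) :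
    opv H κ (fun z => a z - b z) x = opv H κ a x - opv H κ b x := by
  unfold opv
  simp only [mul_sub, Finset.sum_sub_distrib]
  ring

omit [DecidableEq X] in
/-- the weighted energy inequality -/
theorem ctp_l2 {H : Matrix X X ℝ} {κ w : X → ℝ} (hN : Net H κ) (hw : Adm H κ w) {ψ r : X → ℂ}
    (h : ∀ x, opv H κ ψ x = r x) :
    ∑ x, κ x * (w x * ‖ψ x‖) ^ 2 ≤ 4 * ∑ x, (w x * ‖r x‖) ^ 2 / κ x := by
  classical
  obtain ⟨u, hu⟩ : ∃ u : X → ℂ, ∀ x, u x = (w x : ℂ) * ψ x := ⟨_, fun _ => rfl⟩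
  have hun : ∀ x, ‖u x‖ = w x * ‖ψ x‖ := by
    intro x
    rw [hu x, norm_mul, Complex.norm_real, Real.norm_eq_abs, abs_of_pos (hw.pos x)]
  set A : ℝ := ∑ x, κ x * ‖u x‖ ^ 2 with hA
  set R : ℝ := ∑ x, (w x * ‖r x‖) ^ 2 / κ x with hR
  have hA0 : 0 ≤ A := Finset.sum_nonneg fun x _ => mul_nonneg (hN.pos x).le (sq_nonneg _)
  have hR0 : 0 ≤ R := Finset.sum_nonneg fun x _ => div_nonneg (sq_nonneg _) (hN.pos x).le
  -- the conjugated equation
  have heq : ∀ x, ∑ y, (H x y : ℂ) * u y + ∑ y, ((H x y * (w x / w y - 1) : ℝ) : ℂ) * u y -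
      Complex.I * (κ x : ℂ) * u x = (w x : ℂ) * r x := by
    intro x
    have h1 := h x
    unfold opv at h1
    rw [← h1, mul_sub, Finset.mul_sum, ← Finset.sum_add_distrib]
    congr 1
    · refine Finset.sum_congr rfl fun y _ => ?_
      have hy : (w y : ℂ) ≠ 0 := by exact_mod_cast (hw.pos y).ne'
      rw [hu y]
      push_cast
      field_simp
      ring
    · rw [hu x]
      ring
  -- the imaginary part
  have hreal : (∑ x, conj (u x) * ∑ y, (H x y : ℂ) * u y).im = 0 := by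
    have hz : conj (∑ x, conj (u x) * ∑ y, (H x y : ℂ) * u y) =
        ∑ x, conj (u x) * ∑ y, (H x y : ℂ) * u y := by
      rw [map_sum]
      have e1 : ∀ x, conj (conj (u x) * ∑ y, (H x y : ℂ) * u y) =
          ∑ y, (H x y : ℂ) * (u x * conj (u y)) := by
        intro x
        rw [map_mul, Complex.conj_conj, map_sum, Finset.mul_sum]
        refine Finset.sum_congr rfl fun y _ => ?_
        rw [map_mul, Complex.conj_ofReal]
        ring
      have e2 : ∀ x, conj (u x) * ∑ y, (H x y : ℂ) * u y =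
          ∑ y, (H x y : ℂ) * (u y * conj (u x)) := by
        intro x
        rw [Finset.mul_sum]
        refine Finset.sum_congr rfl fun y _ => ?_
        ring
      rw [Finset.sum_congr rfl fun x _ => e1 x, Finset.sum_congr rfl fun x _ => e2 x,
        Finset.sum_comm]
      refine Finset.sum_congr rfl fun x _ => Finset.sum_congr rfl fun y _ => ?_
      rw [hN.sym y x]
    exact Complex.conj_eq_iff_im.1 hz
  have hmain : A = (∑ x, conj (u x) * ∑ y, ((H x y * (w x / w y - 1) : ℝ) : ℂ) * u y).im -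
      (∑ x, conj (u x) * ((w x : ℂ) * r x)).im := by
    have e1 : ∑ x, conj (u x) * ((w x : ℂ) * r x) =
        ∑ x, conj (u x) * ∑ y, (H x y : ℂ) * u y +
        ∑ x, conj (u x) * ∑ y, ((H x y * (w x / w y - 1) : ℝ) : ℂ) * u y -
        Complex.I * ((A : ℝ) : ℂ) := by
      have e2 : Complex.I * ((A : ℝ) : ℂ) = ∑ x, conj (u x) * (Complex.I * (κ x : ℂ) * u x) := by
        rw [hA, Complex.ofReal_sum, Finset.mul_sum]
        refine Finset.sum_congr rfl fun x _ => ?_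
        have e3 : conj (u x) * u x = ((‖u x‖ ^ 2 : ℝ) : ℂ) := by
          rw [mul_comm, Complex.mul_conj, Complex.normSq_eq_norm_sq]
        rw [Complex.ofReal_mul, ← e3]
        ring
      rw [e2, ← Finset.sum_add_distrib, ← Finset.sum_sub_distrib]
      refine Finset.sum_congr rfl fun x _ => ?_
      rw [← heq x]
      ring
    have e4 := congrArg Complex.im e1
    rw [Complex.sub_im, Complex.add_im, hreal] at e4
    have e5 : (Complex.I * ((A : ℝ) : ℂ)).im = A := by simp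
    rw [e5] at e4
    linarith
  -- the commutator
  have hcomm : (∑ x, conj (u x) * ∑ y, ((H x y * (w x / w y - 1) : ℝ) : ℂ) * u y).im ≤ A / 2 := by
    have h1 : (∑ x, conj (u x) * ∑ y, ((H x y * (w x / w y - 1) : ℝ) : ℂ) * u y).im ≤
        ∑ x, ∑ y, |H x y| * |w x / w y - 1| * ((‖u x‖ ^ 2 + ‖u y‖ ^ 2) / 2) := by
      refine le_trans (le_trans (le_abs_self _) (Complex.abs_im_le_norm _)) ?_
      refine le_trans (norm_sum_le _ _) (Finset.sum_le_sum fun x _ => ?_)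
      rw [norm_mul, RCLike.norm_conj]
      refine le_trans (mul_le_mul_of_nonneg_left (norm_sum_le _ _) (norm_nonneg _)) ?_
      rw [Finset.mul_sum]
      refine Finset.sum_le_sum fun y _ => ?_
      rw [norm_mul, Complex.norm_real, Real.norm_eq_abs, abs_mul]
      have h2 : ‖u x‖ * ‖u y‖ ≤ (‖u x‖ ^ 2 + ‖u y‖ ^ 2) / 2 := by
        nlinarith [sq_nonneg (‖u x‖ - ‖u y‖)]
      have h3 : 0 ≤ |H x y| * |w x / w y - 1| := by positivity
      calc ‖u x‖ * (|H x y| * |w x / w y - 1| * ‖u y‖)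
          = |H x y| * |w x / w y - 1| * (‖u x‖ * ‖u y‖) := by ring
        _ ≤ _ := mul_le_mul_of_nonneg_left h2 h3
    have h2 : ∑ x, ∑ y, |H x y| * |w x / w y - 1| * ((‖u x‖ ^ 2 + ‖u y‖ ^ 2) / 2) =
        (1 / 2) * ∑ x, (∑ y, |H x y| * |w x / w y - 1|) * ‖u x‖ ^ 2 +
        (1 / 2) * ∑ x, (∑ y, |H x y| * |w y / w x - 1|) * ‖u x‖ ^ 2 := by
      have e1 : ∑ x, ∑ y, |H x y| * |w x / w y - 1| * ((‖u x‖ ^ 2 + ‖u y‖ ^ 2) / 2) =
          ∑ x, ∑ y, (1 / 2) * (|H x y| * |w x / w y - 1| * ‖u x‖ ^ 2) +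
          ∑ x, ∑ y, (1 / 2) * (|H x y| * |w x / w y - 1| * ‖u y‖ ^ 2) := by
        rw [← Finset.sum_add_distrib]
        refine Finset.sum_congr rfl fun x _ => ?_
        rw [← Finset.sum_add_distrib]
        exact Finset.sum_congr rfl fun y _ => by ring
      rw [e1]
      congr 1
      · rw [Finset.mul_sum]
        refine Finset.sum_congr rfl fun x _ => ?_
        rw [Finset.sum_mul, Finset.mul_sum]
      · rw [Finset.sum_comm, Finset.mul_sum]
        refine Finset.sum_congr rfl fun x _ => ?_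
        rw [Finset.sum_mul, Finset.mul_sum]
        refine Finset.sum_congr rfl fun y _ => ?_
        rw [hN.sym y x]
    have h3 : ∑ x, (∑ y, |H x y| * |w x / w y - 1|) * ‖u x‖ ^ 2 ≤ A / 2 := by
      rw [hA, Finset.sum_div]
      refine Finset.sum_le_sum fun x _ => ?_
      have := mul_le_mul_of_nonneg_right (hw.row x) (sq_nonneg ‖u x‖)
      linarith
    have h4 : ∑ x, (∑ y, |H x y| * |w y / w x - 1|) * ‖u x‖ ^ 2 ≤ A / 2 := by
      rw [hA, Finset.sum_div]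
      refine Finset.sum_le_sum fun x _ => ?_
      have := mul_le_mul_of_nonneg_right (hw.col x) (sq_nonneg ‖u x‖)
      linarith
    rw [h2] at h1
    linarith
  -- the source
  have hsrc : -(∑ x, conj (u x) * ((w x : ℂ) * r x)).im ≤ Real.sqrt A * Real.sqrt R := by
    have h1 : -(∑ x, conj (u x) * ((w x : ℂ) * r x)).im ≤ ∑ x, ‖u x‖ * (w x * ‖r x‖) := by
      refine le_trans (neg_le_abs _) (le_trans (Complex.abs_im_le_norm _) ?_)
      refine le_trans (norm_sum_le _ _) (Finset.sum_le_sum fun x _ => ?_)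
      rw [norm_mul, RCLike.norm_conj, norm_mul, Complex.norm_real, Real.norm_eq_abs,
        abs_of_pos (hw.pos x)]
    have h2 : ∑ x, ‖u x‖ * (w x * ‖r x‖) =
        ∑ x, (Real.sqrt (κ x) * ‖u x‖) * ((w x * ‖r x‖) / Real.sqrt (κ x)) := by
      refine Finset.sum_congr rfl fun x _ => ?_
      have : Real.sqrt (κ x) ≠ 0 := (Real.sqrt_pos.2 (hN.pos x)).ne'
      field_simp
    have h3 := Finset.sum_mul_sq_le_sq_mul_sq Finset.univ
      (fun x => Real.sqrt (κ x) * ‖u x‖) (fun x => (w x * ‖r x‖) / Real.sqrt (κ x))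
    have h4 : ∑ x, (Real.sqrt (κ x) * ‖u x‖) ^ 2 = A := by
      rw [hA]
      refine Finset.sum_congr rfl fun x _ => ?_
      rw [mul_pow, Real.sq_sqrt (hN.pos x).le]
    have h5 : ∑ x, ((w x * ‖r x‖) / Real.sqrt (κ x)) ^ 2 = R := by
      rw [hR]
      refine Finset.sum_congr rfl fun x _ => ?_
      rw [div_pow, Real.sq_sqrt (hN.pos x).le]
    rw [h4, h5] at h3
    rw [h2] at h1
    refine le_trans h1 ?_
    rw [← Real.sqrt_mul hA0]
    exact Real.le_sqrt_of_sq_le h3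
  have hfin : A / 2 ≤ Real.sqrt A * Real.sqrt R := by linarith
  have hfin2 : A ≤ 4 * R := by
    have hs1 : Real.sqrt A * Real.sqrt A = A := Real.mul_self_sqrt hA0
    have hs2 : Real.sqrt R * Real.sqrt R = R := Real.mul_self_sqrt hR0
    have hs3 := Real.sqrt_nonneg A
    have hs4 := Real.sqrt_nonneg R
    nlinarith [sq_nonneg (Real.sqrt A - 2 * Real.sqrt R)]
  have hAe : A = ∑ x, κ x * (w x * ‖ψ x‖) ^ 2 := by
    rw [hA]
    exact Finset.sum_congr rfl fun x _ => by rw [hun x]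
  rw [← hAe]
  exact hfin2

/-- the column of a Green function -/
theorem ctp {H : Matrix X X ℝ} {κ w : X → ℝ} (hN : Net H κ) (hw : Adm H κ w) {g : X → ℂ} {y : X}
    (hg : ∀ x, opv H κ g x = if x = y then 1 else 0) :
    ∑ x, κ x * (w x * ‖g x‖) ^ 2 ≤ 4 * (w y ^ 2 / κ y) ∧
    ∀ x, κ x * κ y * ‖g x‖ ^ 2 * w x ^ 2 ≤ 4 * w y ^ 2 := by
  have h1 := ctp_l2 hN hw (ψ := g) (r := fun x => if x = y then 1 else 0) hg
  have h2 : ∑ x, (w x * ‖(if x = y then (1 : ℂ) else 0)‖) ^ 2 / κ x = w y ^ 2 / κ y := by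
    rw [Finset.sum_eq_single y]
    · simp
    · intro x _ hxy
      simp [hxy]
    · intro h
      exact absurd (Finset.mem_univ y) h
  rw [h2] at h1
  refine ⟨h1, fun x => ?_⟩
  have h3 : κ x * (w x * ‖g x‖) ^ 2 ≤ 4 * (w y ^ 2 / κ y) := by
    refine le_trans ?_ h1
    exact Finset.single_le_sum (f := fun x => κ x * (w x * ‖g x‖) ^ 2)
      (fun z _ => mul_nonneg (hN.pos z).le (sq_nonneg _)) (Finset.mem_univ x)
  have hy := hN.pos y
  calc κ x * κ y * ‖g x‖ ^ 2 * w x ^ 2 = κ x * (w x * ‖g x‖) ^ 2 * κ y := by ring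
    _ ≤ 4 * (w y ^ 2 / κ y) * κ y := mul_le_mul_of_nonneg_right h3 hy.le
    _ = 4 * w y ^ 2 := by field_simp

/-- exponential weights -/
theorem adm_exp {H : Matrix X X ℝ} {κ : X → ℝ} {ρ : X → ℝ} {A : Set X} {D κ₀ a : ℝ}
    (hN : Net H κ) (ha : 0 ≤ a) (ha1 : a ≤ 1) (haD : 4 * a * D ≤ κ₀)
    (hD : ∀ x ∈ A, ∑ y, (if x = y then 0 else |H x y|) ≤ D)
    (hκ : ∀ x ∈ A, κ₀ ≤ κ x)
    (hρ : ∀ x y, H x y ≠ 0 → |ρ x - ρ y| ≤ 1)
    (hρ' : ∀ x y, x ∉ A → H x y ≠ 0 → ρ x = ρ y) :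
    Adm H κ (fun x => Real.exp (a * ρ x)) ∧ Adm H κ (fun x => Real.exp (-(a * ρ x))) := by
  have key : ∀ σ : ℝ, (σ = 1 ∨ σ = -1) → ∀ x,
      ∑ y, |H x y| * |Real.exp (σ * (a * (ρ x - ρ y))) - 1| ≤ κ x / 2 := by
    intro σ hσ x
    by_cases hx : x ∈ A
    · have h1 : ∀ y, |H x y| * |Real.exp (σ * (a * (ρ x - ρ y))) - 1| ≤
          2 * a * (if x = y then 0 else |H x y|) := by
        intro y
        by_cases hxy : x = y
        · subst hxy
          simp
        · rw [if_neg hxy]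
          by_cases h0 : H x y = 0
          · simp [h0]
          · have h2 := hρ x y h0
            have h3 : |σ * (a * (ρ x - ρ y))| ≤ a := by
              have hσa : |σ| = 1 := by rcases hσ with h | h <;> simp [h]
              rw [abs_mul, hσa, one_mul, abs_mul, abs_of_nonneg ha]
              calc a * |ρ x - ρ y| ≤ a * 1 := mul_le_mul_of_nonneg_left h2 ha
                _ = a := mul_one a
            have h4 : |Real.exp (σ * (a * (ρ x - ρ y))) - 1| ≤ 2 * a := by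
              have h5 := Real.abs_exp_sub_one_le (x := σ * (a * (ρ x - ρ y))) (le_trans h3 ha1)
              linarith
            calc |H x y| * |Real.exp (σ * (a * (ρ x - ρ y))) - 1| ≤ |H x y| * (2 * a) :=
                  mul_le_mul_of_nonneg_left h4 (abs_nonneg _)
              _ = _ := by ring
      refine le_trans (Finset.sum_le_sum fun y _ => h1 y) ?_
      rw [← Finset.mul_sum]
      have h6 := mul_le_mul_of_nonneg_left (hD x hx) (by linarith : (0 : ℝ) ≤ 2 * a)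
      have h7 := hκ x hx
      linarith
    · have h1 : ∀ y, |H x y| * |Real.exp (σ * (a * (ρ x - ρ y))) - 1| = 0 := by
        intro y
        by_cases h0 : H x y = 0
        · simp [h0]
        · rw [hρ' x y hx h0]
          simp
      simp only [h1, Finset.sum_const_zero]
      exact (half_pos (hN.pos x)).le
  constructor
  · refine ⟨fun x => Real.exp_pos _, fun x => ?_, fun x => ?_⟩
    · have := key 1 (Or.inl rfl) x
      refine le_trans (le_of_eq (Finset.sum_congr rfl fun y _ => ?_)) this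
      rw [← Real.exp_sub]
      congr 4
      ring
    · have := key (-1) (Or.inr rfl) x
      refine le_trans (le_of_eq (Finset.sum_congr rfl fun y _ => ?_)) this
      rw [← Real.exp_sub]
      congr 4
      ring
  · refine ⟨fun x => Real.exp_pos _, fun x => ?_, fun x => ?_⟩
    · have := key (-1) (Or.inr rfl) x
      refine le_trans (le_of_eq (Finset.sum_congr rfl fun y _ => ?_)) this
      rw [← Real.exp_sub]
      congr 4
      ring
    · have := key 1 (Or.inl rfl) x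
      refine le_trans (le_of_eq (Finset.sum_congr rfl fun y _ => ?_)) this
      rw [← Real.exp_sub]
      congr 4
      ring

omit [DecidableEq X] in
/-- the trivial weight -/
theorem adm_one {H : Matrix X X ℝ} {κ : X → ℝ} (hN : Net H κ) : Adm H κ (fun _ => 1) := by
  refine ⟨fun _ => one_pos, fun x => ?_, fun x => ?_⟩ <;>
  · simp only [div_one, sub_self, abs_zero, mul_zero, Finset.sum_const_zero]
    exact (half_pos (hN.pos x)).le

/-- RNG: decay in any distance which does not count the bonds of dead sites -/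
theorem rng {H : Matrix X X ℝ} {κ : X → ℝ} {ρ : X → ℝ} {A : Set X} {D κ₀ a : ℝ}
    (hN : Net H κ) (ha : 0 ≤ a) (ha1 : a ≤ 1) (haD : 4 * a * D ≤ κ₀)
    (hD : ∀ x ∈ A, ∑ y, (if x = y then 0 else |H x y|) ≤ D)
    (hκ : ∀ x ∈ A, κ₀ ≤ κ x)
    (hρ : ∀ x y, H x y ≠ 0 → |ρ x - ρ y| ≤ 1)
    (hρ' : ∀ x y, x ∉ A → H x y ≠ 0 → ρ x = ρ y) {g : X → ℂ} {y : X}
    (hg : ∀ x, opv H κ g x = if x = y then 1 else 0) (x : X) :
    κ x * κ y * ‖g x‖ ^ 2 ≤ 4 * Real.exp (-(2 * a * |ρ x - ρ y|)) := by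
  obtain ⟨h1, h2⟩ := adm_exp hN ha ha1 haD hD hκ hρ hρ'
  have h3 := (ctp hN h1 hg).2 x
  have h4 := (ctp hN h2 hg).2 x
  have e : ∀ t : ℝ, Real.exp t ^ 2 = Real.exp (2 * t) := by
    intro t
    rw [← Real.exp_nat_mul]
    norm_num
  simp only [e] at h3 h4
  rcases le_total (ρ y) (ρ x) with h | h
  · rw [abs_of_nonneg (sub_nonneg.2 h)]
    have h5 : κ x * κ y * ‖g x‖ ^ 2 = (κ x * κ y * ‖g x‖ ^ 2 * Real.exp (2 * (a * ρ x))) *
        Real.exp (-(2 * (a * ρ x))) := by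
      rw [mul_assoc (κ x * κ y * ‖g x‖ ^ 2), ← Real.exp_add, add_neg_cancel, Real.exp_zero,
        mul_one]
    rw [h5]
    refine le_trans (mul_le_mul_of_nonneg_right h3 (Real.exp_pos _).le) (le_of_eq ?_)
    rw [mul_assoc, ← Real.exp_add]
    congr 2
    ring
  · rw [abs_of_nonpos (sub_nonpos.2 h)]
    have h5 : κ x * κ y * ‖g x‖ ^ 2 = (κ x * κ y * ‖g x‖ ^ 2 * Real.exp (2 * (-(a * ρ x)))) *
        Real.exp (-(2 * (-(a * ρ x)))) := by
      rw [mul_assoc (κ x * κ y * ‖g x‖ ^ 2), ← Real.exp_add, add_neg_cancel, Real.exp_zero,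
        mul_one]
    rw [h5]
    refine le_trans (mul_le_mul_of_nonneg_right h4 (Real.exp_pos _).le) (le_of_eq ?_)
    rw [mul_assoc, ← Real.exp_add]
    congr 2
    ring

/-- a cut along living bonds: `S` contains the ends of all bonds between `B` and its complement -/
structure Cut (H : Matrix X X ℝ) (κ w : X → ℝ) (B S : Finset X) (D κ₀ W : ℝ) : Prop where
  hB : ∀ z ∈ B, ∀ y, y ∉ B → H z y ≠ 0 → z ∈ S ∧ y ∈ S
  hD : ∀ x ∈ S, ∑ y, (if x = y then 0 else |H x y|) ≤ D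
  hκ : ∀ x ∈ S, κ₀ ≤ κ x
  hW : ∀ x ∈ S, w x ≤ W
  h0 : 0 < κ₀
  hD0 : 0 ≤ D

/-- the field inside of `B` is controlled by its values near the boundary -/
theorem cut_bound {H : Matrix X X ℝ} {κ w : X → ℝ} {B S : Finset X} {D κ₀ W : ℝ}
    (hN : Net H κ) (hw : Adm H κ w) (hC : Cut H κ w B S D κ₀ W) {ψ : X → ℂ}
    (hψ : ∀ z ∈ B, opv H κ ψ z = 0) :
    ∑ x ∈ B, κ x * (w x * ‖ψ x‖) ^ 2 ≤ 4 * (W ^ 2 / κ₀ * D ^ 2 * ∑ y ∈ S, ‖ψ y‖ ^ 2) := by
  obtain ⟨χ, hχ⟩ : ∃ χ : X → ℂ, ∀ z, χ z = if z ∈ B then ψ z else 0 := ⟨_, fun _ => rfl⟩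
  obtain ⟨d, hd⟩ : ∃ d : X → X → ℝ, ∀ x y, d x y =
      if x ∈ B then (if y ∈ B then 0 else -H x y) else (if y ∈ B then H x y else 0) :=
    ⟨_, fun _ _ => rfl⟩
  have hr : ∀ x, opv H κ χ x = ∑ y, (d x y : ℂ) * ψ y := by
    intro x
    by_cases hx : x ∈ B
    · have h1 := hψ x hx
      unfold opv at h1 ⊢
      have h2 : ∑ y, (H x y : ℂ) * ψ y = Complex.I * (κ x : ℂ) * ψ x := sub_eq_zero.1 h1
      rw [hχ x, if_pos hx, ← h2, ← Finset.sum_sub_distrib]
      refine Finset.sum_congr rfl fun y _ => ?_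
      rw [hd x y, if_pos hx, hχ y]
      by_cases hy : y ∈ B
      · simp [hy]
      · simp [hy]
    · unfold opv
      rw [hχ x, if_neg hx, mul_zero, sub_zero]
      refine Finset.sum_congr rfl fun y _ => ?_
      rw [hd x y, if_neg hx, hχ y]
      by_cases hy : y ∈ B
      · simp [hy]
      · simp [hy]
  have hdS : ∀ x y, d x y ≠ 0 → x ∈ S ∧ y ∈ S := by
    intro x y h
    rw [hd x y] at h
    by_cases hx : x ∈ B
    · by_cases hy : y ∈ B
      · simp [hx, hy] at h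
      · rw [if_pos hx, if_neg hy] at h
        exact hC.hB x hx y hy (neg_ne_zero.1 h)
    · by_cases hy : y ∈ B
      · rw [if_neg hx, if_pos hy] at h
        have h3 : H y x ≠ 0 := by rw [hN.sym y x]; exact h
        exact (hC.hB y hy x hx h3).symm
      · simp [hx, hy] at h
  have hdabs : ∀ x y, |d x y| ≤ if x = y then 0 else |H x y| := by
    intro x y
    rw [hd x y]
    by_cases hxy : x = y
    · subst hxy
      by_cases hx : x ∈ B <;> simp [hx]
    · rw [if_neg hxy]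
      by_cases hx : x ∈ B <;> by_cases hy : y ∈ B <;> simp [hx, hy]
  have hdsym : ∀ x y, |d x y| = |d y x| := by
    intro x y
    rw [hd x y, hd y x, hN.sym x y]
    by_cases hx : x ∈ B <;> by_cases hy : y ∈ B <;> simp [hx, hy]
  have hdD : ∀ x, ∑ y, |d x y| ≤ D := by
    intro x
    by_cases hx : x ∈ S
    · exact le_trans (Finset.sum_le_sum fun y _ => hdabs x y) (hC.hD x hx)
    · refine le_trans (le_of_eq (Finset.sum_eq_zero fun y _ => ?_)) hC.hD0
      rw [abs_eq_zero]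
      by_contra h
      exact hx (hdS x y h).1
  have h1 := ctp_l2 hN hw hr
  -- the left side
  have hL : ∑ x ∈ B, κ x * (w x * ‖ψ x‖) ^ 2 ≤ ∑ x, κ x * (w x * ‖χ x‖) ^ 2 := by
    have e1 : ∑ x ∈ B, κ x * (w x * ‖ψ x‖) ^ 2 = ∑ x ∈ B, κ x * (w x * ‖χ x‖) ^ 2 := by
      refine Finset.sum_congr rfl fun x hx => ?_
      rw [hχ x, if_pos hx]
    rw [e1]
    exact Finset.sum_le_sum_of_subset_of_nonneg (Finset.subset_univ B)
      fun x _ _ => mul_nonneg (hN.pos x).le (sq_nonneg _)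
  -- the right side
  have hsq : ∀ x, ‖∑ y, (d x y : ℂ) * ψ y‖ ^ 2 ≤ D * ∑ y, |d x y| * ‖ψ y‖ ^ 2 := by
    intro x
    have e1 : ‖∑ y, (d x y : ℂ) * ψ y‖ ≤ ∑ y, |d x y| * ‖ψ y‖ := by
      refine le_trans (norm_sum_le _ _) (le_of_eq (Finset.sum_congr rfl fun y _ => ?_))
      rw [norm_mul, Complex.norm_real, Real.norm_eq_abs]
    have e2 : (∑ y, |d x y| * ‖ψ y‖) ^ 2 ≤ (∑ y, |d x y|) * ∑ y, |d x y| * ‖ψ y‖ ^ 2 := by
      refine Finset.sum_sq_le_sum_mul_sum_of_sq_le_mul _ (fun y _ => abs_nonneg _)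
        (fun y _ => by positivity) (fun y _ => le_of_eq ?_)
      ring
    have e3 : 0 ≤ ∑ y, |d x y| * ‖ψ y‖ ^ 2 := Finset.sum_nonneg fun y _ => by positivity
    calc ‖∑ y, (d x y : ℂ) * ψ y‖ ^ 2 ≤ (∑ y, |d x y| * ‖ψ y‖) ^ 2 := by gcongr
      _ ≤ _ := e2
      _ ≤ _ := mul_le_mul_of_nonneg_right (hdD x) e3
  have hterm : ∀ x, (w x * ‖∑ y, (d x y : ℂ) * ψ y‖) ^ 2 / κ x ≤
      W ^ 2 / κ₀ * (D * ∑ y, |d x y| * ‖ψ y‖ ^ 2) := by
    intro x
    have e3 : 0 ≤ ∑ y, |d x y| * ‖ψ y‖ ^ 2 := Finset.sum_nonneg fun y _ => by positivity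
    by_cases hx : x ∈ S
    · have e4 := hC.hκ x hx
      have e5 := hC.hW x hx
      have e6 := hw.pos x
      have e7 := hC.h0
      calc (w x * ‖∑ y, (d x y : ℂ) * ψ y‖) ^ 2 / κ x
          ≤ (W * ‖∑ y, (d x y : ℂ) * ψ y‖) ^ 2 / κ₀ := by
            gcongr
        _ = W ^ 2 / κ₀ * ‖∑ y, (d x y : ℂ) * ψ y‖ ^ 2 := by ring
        _ ≤ _ := by
            apply mul_le_mul_of_nonneg_left (hsq x)
            positivity
    · have e4 : ∑ y, (d x y : ℂ) * ψ y = 0 := by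
        refine Finset.sum_eq_zero fun y _ => ?_
        have : d x y = 0 := by
          by_contra h
          exact hx (hdS x y h).1
        rw [this]
        simp
      rw [e4]
      have e7 := hC.h0
      have e8 := hC.hD0
      simp only [norm_zero, mul_zero, ne_eq, OfNat.ofNat_ne_zero, not_false_eq_true, zero_pow,
        zero_div]
      positivity
  have hR : ∑ x, (w x * ‖∑ y, (d x y : ℂ) * ψ y‖) ^ 2 / κ x ≤
      W ^ 2 / κ₀ * D ^ 2 * ∑ y ∈ S, ‖ψ y‖ ^ 2 := by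
    refine le_trans (Finset.sum_le_sum fun x _ => hterm x) ?_
    rw [← Finset.mul_sum, ← Finset.mul_sum, Finset.sum_comm]
    have e1 : ∀ y, ∑ x, |d x y| * ‖ψ y‖ ^ 2 ≤ D * (if y ∈ S then ‖ψ y‖ ^ 2 else 0) := by
      intro y
      rw [← Finset.sum_mul]
      by_cases hy : y ∈ S
      · rw [if_pos hy]
        refine mul_le_mul_of_nonneg_right ?_ (sq_nonneg _)
        refine le_trans (le_of_eq (Finset.sum_congr rfl fun x _ => hdsym x y)) (hdD y)
      · rw [if_neg hy, mul_zero]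
        refine le_of_eq ?_
        have : ∑ x, |d x y| = 0 := Finset.sum_eq_zero fun x _ => by
          rw [abs_eq_zero]
          by_contra h
          exact hy (hdS x y h).2
        rw [this, zero_mul]
    have e2 : ∑ y, ∑ x, |d x y| * ‖ψ y‖ ^ 2 ≤ D * ∑ y ∈ S, ‖ψ y‖ ^ 2 := by
      refine le_trans (Finset.sum_le_sum fun y _ => e1 y) (le_of_eq ?_)
      rw [← Finset.mul_sum, Finset.sum_ite_mem, Finset.univ_inter]
    have e7 := hC.h0
    have e8 := hC.hD0
    calc W ^ 2 / κ₀ * (D * ∑ y, ∑ x, |d x y| * ‖ψ y‖ ^ 2)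
        ≤ W ^ 2 / κ₀ * (D * (D * ∑ y ∈ S, ‖ψ y‖ ^ 2)) := by gcongr
      _ = _ := by ring
  exact le_trans hL (le_trans h1 (mul_le_mul_of_nonneg_left hR (by norm_num)))

/-- decay of the leverages -/
theorem lev_decay {H : Matrix X X ℝ} {κ w : X → ℝ} {B S F : Finset X} {D κ₀ W : ℝ}
    (hN : Net H κ) (hw : Adm H κ w) (hC : Cut H κ w B S D κ₀ W) (hBF : Disjoint B F)
    (hSF : Disjoint S F) {x : X} (hx : x ∈ B) :
    Lev H κ F x (4 * (W ^ 2 * D ^ 2) / (κ₀ ^ 2 * κ x * w x ^ 2)) := by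
  intro ψ hψ
  have h1 := cut_bound hN hw hC (ψ := ψ) (fun z hz => hψ z (Finset.disjoint_left.1 hBF hz))
  have h2 : κ x * (w x * ‖ψ x‖) ^ 2 ≤ ∑ x ∈ B, κ x * (w x * ‖ψ x‖) ^ 2 :=
    Finset.single_le_sum (f := fun x => κ x * (w x * ‖ψ x‖) ^ 2)
      (fun z _ => mul_nonneg (hN.pos z).le (sq_nonneg _)) hx
  have h3 : κ₀ * ∑ y ∈ S, ‖ψ y‖ ^ 2 ≤ Q κ F ψ := by
    rw [Finset.mul_sum]
    unfold Q
    refine le_trans (Finset.sum_le_sum (g := fun y => κ y * ‖ψ y‖ ^ 2) fun y hy => ?_) ?_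
    · exact mul_le_mul_of_nonneg_right (hC.hκ y hy) (sq_nonneg _)
    · refine Finset.sum_le_sum_of_subset_of_nonneg ?_
        fun y _ _ => mul_nonneg (hN.pos y).le (sq_nonneg _)
      intro y hy
      exact Finset.mem_compl.2 (Finset.disjoint_left.1 hSF hy)
  have e7 := hC.h0
  have e8 := hC.hD0
  have hκx := hN.pos x
  have hwx := hw.pos x
  have hQ : ∑ y ∈ S, ‖ψ y‖ ^ 2 ≤ Q κ F ψ / κ₀ := by
    rw [le_div_iff₀ e7]
    linarith
  have h4 : κ x * (w x * ‖ψ x‖) ^ 2 ≤ 4 * (W ^ 2 / κ₀ * D ^ 2 * (Q κ F ψ / κ₀)) := by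
    refine le_trans h2 (le_trans h1 ?_)
    gcongr
  have h5 : ‖ψ x‖ ^ 2 = κ x * (w x * ‖ψ x‖) ^ 2 / (κ x * w x ^ 2) := by
    field_simp
  rw [h5]
  refine le_trans (div_le_div_of_nonneg_right h4 (by positivity)) (le_of_eq ?_)
  field_simp

/-- LOCALITY: two networks with the same rows in `B`, cut along bonds which are alive in both -/
theorem loc_bound {H H' : Matrix X X ℝ} {κ κ' w : X → ℝ} {B S : Finset X} {D κ₀ W : ℝ}
    (hN : Net H κ) (hN' : Net H' κ') (hw : Adm H κ w) (hC : Cut H κ w B S D κ₀ W)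
    (hκ' : ∀ x ∈ S, κ₀ ≤ κ' x) (hO : ∀ x ∈ B, κ' x = κ x ∧ ∀ y, H' x y = H x y)
    {g g' : X → ℂ} {y : X} (hy : y ∈ B)
    (hg : ∀ x, opv H κ g x = if x = y then 1 else 0)
    (hg' : ∀ x, opv H' κ' g' x = if x = y then 1 else 0) :
    ∑ x ∈ B, κ x * (w x * ‖g x - g' x‖) ^ 2 ≤ 64 * (W ^ 2 * D ^ 2) / (κ₀ ^ 2 * κ y) := by
  have h1 := cut_bound hN hw hC (ψ := fun z => g z - g' z) (by
    intro z hz
    have h2 : opv H κ g' z = opv H' κ' g' z := by
      unfold opv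
      rw [(hO z hz).1]
      congr 1
      exact Finset.sum_congr rfl fun u _ => by rw [(hO z hz).2 u]
    rw [opv_sub', h2, hg z, hg' z, sub_self])
  have h2 := (ctp hN (adm_one hN) hg).1
  have h3 := (ctp hN' (adm_one hN') hg').1
  rw [(hO y hy).1] at h3
  have e7 := hC.h0
  have e8 := hC.hD0
  have hκy := hN.pos y
  have h4 : κ₀ * ∑ z ∈ S, ‖g z - g' z‖ ^ 2 ≤ 16 / κ y := by
    have e1 : ∀ z ∈ S, κ₀ * ‖g z - g' z‖ ^ 2 ≤
        2 * (κ z * (1 * ‖g z‖) ^ 2) + 2 * (κ' z * (1 * ‖g' z‖) ^ 2) := by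
      intro z hz
      have e2 := hC.hκ z hz
      have e3 := hκ' z hz
      have e4 : ‖g z - g' z‖ ≤ ‖g z‖ + ‖g' z‖ := norm_sub_le _ _
      have e5 : ‖g z - g' z‖ ^ 2 ≤ 2 * ‖g z‖ ^ 2 + 2 * ‖g' z‖ ^ 2 := by
        nlinarith [norm_nonneg (g z - g' z), norm_nonneg (g z), norm_nonneg (g' z),
          sq_nonneg (‖g z‖ - ‖g' z‖)]
      have e6 := mul_le_mul_of_nonneg_right e2 (sq_nonneg ‖g z‖)
      have e9 := mul_le_mul_of_nonneg_right e3 (sq_nonneg ‖g' z‖)
      have e10 := mul_le_mul_of_nonneg_left e5 e7.le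
      rw [one_mul, one_mul]
      linarith
    rw [Finset.mul_sum]
    refine le_trans (Finset.sum_le_sum e1) ?_
    rw [Finset.sum_add_distrib, ← Finset.mul_sum, ← Finset.mul_sum]
    have e2 : ∑ z ∈ S, κ z * (1 * ‖g z‖) ^ 2 ≤ ∑ z, κ z * (1 * ‖g z‖) ^ 2 :=
      Finset.sum_le_sum_of_subset_of_nonneg (Finset.subset_univ S)
        fun z _ _ => mul_nonneg (hN.pos z).le (sq_nonneg _)
    have e3 : ∑ z ∈ S, κ' z * (1 * ‖g' z‖) ^ 2 ≤ ∑ z, κ' z * (1 * ‖g' z‖) ^ 2 :=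
      Finset.sum_le_sum_of_subset_of_nonneg (Finset.subset_univ S)
        fun z _ _ => mul_nonneg (hN'.pos z).le (sq_nonneg _)
    have e4 : (1 : ℝ) ^ 2 / κ y = 1 / κ y := by norm_num
    rw [e4] at h2 h3
    have e5 : (16 : ℝ) / κ y = 16 * (1 / κ y) := by ring
    rw [e5]
    linarith
  have h5 : ∑ z ∈ S, ‖g z - g' z‖ ^ 2 ≤ 16 / κ y / κ₀ := by
    rw [le_div_iff₀ e7]
    linarith
  refine le_trans h1 ?_
  calc 4 * (W ^ 2 / κ₀ * D ^ 2 * ∑ z ∈ S, ‖g z - g' z‖ ^ 2)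
      ≤ 4 * (W ^ 2 / κ₀ * D ^ 2 * (16 / κ y / κ₀)) := by gcongr
    _ = _ := by
      field_simp
      ring

end

end Pool.Agent.ANR.H92
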